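import Pool.Agent.H37.Chrom.Defs
import Pool.Agent.H37.Chrom.Final
import Pool.Agent.CHR.Inside
import Pool.Agent.CHR.Middle

/-!
# The boundary of the right lens, without `1` and `2`, is in the interior of the closure
-/

namespace H80L

open CHR H37.Chrom Metric Set Filter Topology

/-- recurrence on the circle -/
theorem circle_rec {u : ℂ} (hu : ‖u‖ = 1) {η : ℝ} (hη : 0 < η) :
    ∃ m, 3 ≤ m ∧ ‖1 - u ^ m‖ < η := by
  have hmem : ∀ n : ℕ, (fun n : ℕ => u ^ n) n ∈ closedBall (0 : ℂ) 1 := by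
    intro n
    simp [hu]
  obtain ⟨c, -, φ, hφ, hlim⟩ := (isCompact_closedBall (0 : ℂ) 1).tendsto_subseq hmem
  obtain ⟨N, hN⟩ := (Metric.tendsto_atTop.1 hlim) (η / 2) (by linarith)
  have h1 := hN N le_rfl
  have h2 := hN (N + 3) (by omega)
  have h3 : φ N + 3 ≤ φ (N + 3) := by
    have e1 := hφ (Nat.lt_succ_self N)
    have e2 := hφ (Nat.lt_succ_self (N + 1))
    have e3 := hφ (Nat.lt_succ_self (N + 2))
    simp only [Nat.succ_eq_add_one] at e1 e2 e3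
    have e4 : N + 1 + 1 + 1 = N + 3 := rfl
    have e5 : N + 2 + 1 = N + 3 := rfl
    have e6 : N + 1 + 1 = N + 2 := rfl
    rw [e6] at e2
    rw [e5] at e3
    omega
  refine ⟨φ (N + 3) - φ N, by omega, ?_⟩
  simp only [Function.comp_apply, dist_eq_norm] at h1 h2
  have h4 : u ^ φ (N + 3) = u ^ φ N * u ^ (φ (N + 3) - φ N) := by
    rw [← pow_add]
    congr 1
    omega
  have h5 : ‖u ^ φ N * (1 - u ^ (φ (N + 3) - φ N))‖ = ‖1 - u ^ (φ (N + 3) - φ N)‖ := by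
    rw [norm_mul, norm_pow, hu, one_pow, one_mul]
  rw [← h5, mul_sub, mul_one, ← h4]
  calc ‖u ^ φ N - u ^ φ (N + 3)‖ = ‖(u ^ φ N - c) - (u ^ φ (N + 3) - c)‖ := by
        congr 1
        ring
    _ ≤ ‖u ^ φ N - c‖ + ‖u ^ φ (N + 3) - c‖ := norm_sub_le _ _
    _ < η := by linarith

/-- inside the disc: a power close to the positive real axis -/
theorem disc_rec {z : ℂ} (hz0 : z ≠ 0) (hz1 : ‖z‖ < 1) : ∃ m, 3 ≤ m ∧ ‖1 - z ^ m‖ < 1 := by
  have hr : 0 < ‖z‖ := norm_pos_iff.2 hz0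
  set u : ℂ := ((‖z‖⁻¹ : ℝ) : ℂ) * z with hu
  have hun : ‖u‖ = 1 := by
    rw [hu, norm_mul, Complex.norm_real, norm_inv, norm_norm, inv_mul_cancel₀ hr.ne']
  obtain ⟨m, hm, h⟩ := circle_rec hun (η := 1 / 2) (by norm_num)
  refine ⟨m, hm, ?_⟩
  have hzu : z = ((‖z‖ : ℝ) : ℂ) * u := by
    rw [hu, ← mul_assoc, ← Complex.ofReal_mul, mul_inv_cancel₀ hr.ne', Complex.ofReal_one,
      one_mul]
  have hzm : z ^ m = ((‖z‖ ^ m : ℝ) : ℂ) * u ^ m := by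
    conv_lhs => rw [hzu]
    rw [mul_pow, Complex.ofReal_pow]
  set ρ : ℝ := ‖z‖ ^ m with hρ
  have hρ0 : 0 < ρ := pow_pos hr m
  have hρ1 : ρ < 1 := pow_lt_one₀ hr.le hz1 (by omega)
  have h6 : 1 - z ^ m = ((1 - ρ : ℝ) : ℂ) + (ρ : ℂ) * (1 - u ^ m) := by
    rw [hzm]
    push_cast
    ring
  rw [h6]
  refine (norm_add_le _ _).trans_lt ?_
  rw [norm_mul, Complex.norm_real, Complex.norm_real, Real.norm_eq_abs, Real.norm_eq_abs,
    abs_of_pos hρ0, abs_of_pos (by linarith)]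
  nlinarith

/-- every boundary point of the right lens, except `1` and `2`, is an interior point of the
closure of the set of chromatic roots -/
theorem arcs_interior
    (hlens : ∀ (q : ℂ) (m : ℕ), 3 ≤ m → ‖q - 1‖ < 1 → ‖q - 2‖ < 1 →
      ‖1 - (2 - q) ^ m‖ < ‖q - 1‖ ^ 2 → q ∈ closure rootSet)
    {q0 : ℂ} (h : (‖q0 - 1‖ = 1 ∧ ‖q0 - 2‖ ≤ 1) ∨ (‖q0 - 1‖ ≤ 1 ∧ ‖q0 - 2‖ = 1))
    (h1 : q0 ≠ 1) (h2 : q0 ≠ 2) : q0 ∈ interior (closure rootSet) := by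
  have hz0 : (2 : ℂ) - q0 ≠ 0 := sub_ne_zero.2 h2.symm
  have hz1 : ‖(2 : ℂ) - q0‖ ≤ 1 := by
    rw [norm_sub_rev]
    rcases h with h | h
    · exact h.2
    · exact h.2.le
  have hq1 : 0 < ‖q0 - 1‖ := norm_pos_iff.2 (sub_ne_zero.2 h1)
  obtain ⟨m, hm, hB⟩ : ∃ m, 3 ≤ m ∧ ‖1 - (2 - q0) ^ m‖ < ‖q0 - 1‖ ^ 2 := by
    rcases hz1.lt_or_eq with h3 | h3
    · have h4 : ‖q0 - 1‖ = 1 := by
        rcases h with h | h
        · exact h.1
        · rw [norm_sub_rev] at h3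
          rw [h.2] at h3
          exact absurd h3 (lt_irrefl _)
      obtain ⟨m, hm, h5⟩ := disc_rec hz0 h3
      exact ⟨m, hm, by rw [h4, one_pow]; exact h5⟩
    · exact circle_rec h3 (pow_pos hq1 2)
  have hn : 1 < ‖q0‖ := by
    have h3 : ‖q0 - 2‖ ≤ 1 := by rw [norm_sub_rev]; exact hz1
    have h4 : ‖q0 - 2‖ ^ 2 = (q0.re - 2) ^ 2 + q0.im ^ 2 := by
      rw [← Complex.normSq_eq_norm_sq, Complex.normSq_apply]
      simp
      ring
    have h5 : ‖q0‖ ^ 2 = q0.re ^ 2 + q0.im ^ 2 := by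
      rw [← Complex.normSq_eq_norm_sq, Complex.normSq_apply]
      ring
    have h6 : ‖q0 - 2‖ ^ 2 ≤ 1 := by
      have := norm_nonneg (q0 - 2)
      nlinarith
    have h7 : 1 ≤ q0.re := by nlinarith [sq_nonneg q0.im]
    by_contra hc
    push Not at hc
    have h8 : ‖q0‖ ^ 2 ≤ 1 := by
      have := norm_nonneg q0
      nlinarith
    have h9 : q0.im ^ 2 ≤ 0 := by nlinarith
    have h10 : q0.im = 0 := by
      have := sq_nonneg q0.im
      exact pow_eq_zero_iff (by norm_num) |>.1 (le_antisymm h9 this)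
    have h11 : q0.re = 1 := by nlinarith
    exact h1 (Complex.ext (by simpa using h11) (by simpa using h10))
  rw [mem_interior]
  refine ⟨{z : ℂ | ‖1 - (2 - z) ^ m‖ < ‖z - 1‖ ^ 2} ∩ {z : ℂ | 1 < ‖z‖}, ?_,
    (isOpen_lt (by fun_prop) (by fun_prop)).inter (isOpen_lt (by fun_prop) (by fun_prop)),
    ⟨hB, hn⟩⟩
  rintro z ⟨hz, hzn⟩
  by_cases g1 : 1 ≤ ‖z - 1‖
  · by_cases g2 : 1 ≤ ‖z - 2‖
    · exact outside_subset g1 g2
    · exact CHR.inside_subset g1 (not_le.1 g2)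
  · by_cases g2 : 1 ≤ ‖z - 2‖
    · exact CHR.middle_subset (not_le.1 g1) (le_of_lt hzn) g2
    · exact hlens z m hm (not_le.1 g1) (not_le.1 g2) hz

end H80L
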