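import Pool.Agent.CHR.Words

/-!
# Words of two-hub rims with the blocks `C D^k` and `C D^a C D^k`

For `MP_5e2eaf_co`. `C = false`, `D = true`. Block `false`: `C D^k`; block `true`: `C D^a C D^k`.
Limit amplitudes: `1` and `∑ i < a + 2, (2 - q)^i`.
-/

namespace H80L

open CHR

variable {A : Type} [CommRing A]

/-- the block `C D^k` (`false`) or `C D^a C D^k` (`true`) -/
def blkl (a k : ℕ) (b : Bool) : List Bool :=
  (if b then false :: List.replicate a true else []) ++ (false :: List.replicate k true)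

/-- the word with the blocks `bs` -/
def wordl (a k : ℕ) (bs : List Bool) : List Bool := (bs.map (blkl a k)).flatten

/-- the signed matrix of the head of the block -/
def Xl (a : ℕ) (b : Bool) (q : A) : Matrix (Fin 3) (Fin 3) A :=
  if b then (-1 : A) ^ (a + 1) • (Bm false q * Bm true q ^ a * Bm false q) else Bm false q

/-- the main part of the partition function -/
def Phl (a : ℕ) (bs : List Bool) (q x : A) : A :=
  ((bs.map (fun b => Xl a b q * (V2 q + x • V1 q))).prod).trace

/-- the limit amplitude of the long block -/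
def bl (a : ℕ) (q : A) : A := ∑ i ∈ Finset.range (a + 2), (2 - q) ^ i

theorem length_blkl (a k : ℕ) (b : Bool) :
    (blkl a k b).length = (if b then a + 1 else 0) + (k + 1) := by
  cases b
  · simp [blkl]
  · simp [blkl]
    omega

private lemma pow_sq_one (k : ℕ) : ((-1 : A) ^ k) * (-1) ^ k = 1 := by
  rw [← mul_pow]; simp

theorem blkl_prod (q : A) (a k : ℕ) (b : Bool) :
    ((q - 1) * (-1) ^ (blkl a (k + 1) b).length) •
      (((blkl a (k + 1) b).map (fun b => Bm b q)).prod) =
      Xl a b q * (V2 q + (2 - q) ^ k • V1 q) := by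
  have h3 := pow_sq_one (A := A) k
  have h4 : ((-1 : A) ^ k) * (q - 2) ^ k = (2 - q) ^ k := by
    rw [← mul_pow]; congr 1; ring
  have h5 : ((q - 1) * (-1 : A) ^ k) • (Bm true q ^ (k + 1)) = V2 q + (2 - q) ^ k • V1 q := by
    rw [mul_comm (q - 1), mul_smul, Bm_true_pow, smul_sub, smul_smul,
      smul_smul, h4, pow_succ, ← mul_assoc, h3, one_mul, neg_one_smul, sub_neg_eq_add, add_comm]
  have h6 : (-1 : A) ^ (k + 1 + 1) = (-1) ^ k := by
    rw [pow_succ, pow_succ]; ring
  rw [length_blkl]
  cases b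
  · have h2 : ((blkl a (k + 1) false).map (fun b => Bm b q)).prod =
        Bm false q * Bm true q ^ (k + 1) := by
      simp [blkl, List.map_replicate, List.prod_replicate]
    rw [h2, ← mul_smul_comm]
    simp only [Bool.false_eq_true, if_false, zero_add, h6, h5, Xl]
  · have h2 : ((blkl a (k + 1) true).map (fun b => Bm b q)).prod =
        (Bm false q * Bm true q ^ a * Bm false q) * Bm true q ^ (k + 1) := by
      simp only [blkl, if_true, List.map_append, List.prod_append, List.map_cons, List.prod_cons,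
        List.map_replicate, List.prod_replicate, mul_assoc]
    have h7 : (q - 1) * (-1 : A) ^ ((a + 1) + (k + 1 + 1)) =
        (-1) ^ (a + 1) * ((q - 1) * (-1) ^ k) := by
      rw [pow_add, h6]; ring
    simp only [if_true]
    rw [h2, h7, mul_smul, ← mul_smul_comm, h5, Xl, if_pos rfl, smul_mul_assoc]

theorem wordl_cons (a k : ℕ) (b : Bool) (bs : List Bool) :
    wordl a k (b :: bs) = blkl a k b ++ wordl a k bs := by
  simp [wordl]

theorem wordsl_prod (q : A) (a k : ℕ) (bs : List Bool) :
    ((q - 1) ^ bs.length * (-1) ^ (wordl a (k + 1) bs).length) •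
      (((wordl a (k + 1) bs).map (fun b => Bm b q)).prod) =
      (bs.map (fun b => Xl a b q * (V2 q + (2 - q) ^ k • V1 q))).prod := by
  induction bs with
  | nil => simp [wordl]
  | cons b bs ih =>
    rw [wordl_cons, List.map_append, List.prod_append, List.length_cons, List.map_cons,
      List.prod_cons, ← ih, ← blkl_prod, smul_mul_smul_comm, List.length_append]
    congr 1
    rw [pow_succ, pow_add]
    ring

theorem wordl_identity (a k : ℕ) (N : ℕ) (bs : List Bool) (hbs : bs.length = N + 1) (q : A) :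
    (q - 1) ^ N * (-1) ^ (wordl a (k + 1) bs).length * Rw (wordl a (k + 1) bs) q =
      q * ((q - 1) ^ N * ((2 - q) ^ (wordl a (k + 1) bs).length + (q ^ 2 - 3 * q + 1)) +
        Phl a bs q ((2 - q) ^ k)) := by
  have h1 := congrArg Matrix.trace (wordsl_prod q a k bs)
  rw [Matrix.trace_smul, smul_eq_mul, hbs] at h1
  have h3 := pow_sq_one (A := A) (wordl a (k + 1) bs).length
  have h4 : ((-1 : A) ^ (wordl a (k + 1) bs).length) * (q - 2) ^ (wordl a (k + 1) bs).length =
      (2 - q) ^ (wordl a (k + 1) bs).length := by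
    rw [← mul_pow]; congr 1; ring
  rw [pow_succ] at h1
  rw [Phl, ← h1, ← h4, Rw]
  linear_combination (q * (q - 1) ^ N * ((q - 2) + (q - 1) * (q - 3))) * h3

private def wl2 : Fin 3 → A := ![1, 0, -1]

private def wv2 (q : A) : Fin 3 → A := ![-(q - 2), 0, 1]

private lemma words_V2 (q : A) : V2 q = Matrix.vecMulVec (wv2 q) wl2 := by
  ext i j
  fin_cases i <;> fin_cases j <;> simp [V2, Matrix.vecMulVec, wv2, wl2]

private lemma words_rank (q : A) (a : ℕ) (bs : List Bool) : ∀ b : Bool,
    (((b :: bs).map (fun b => Xl a b q * V2 q)).prod) =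
      (bs.map (fun b => wl2 ⬝ᵥ (Xl a b q).mulVec (wv2 q))).prod •
        Matrix.vecMulVec ((Xl a b q).mulVec (wv2 q)) wl2 := by
  induction bs with
  | nil =>
    intro b
    rw [List.map_cons, List.map_nil, List.prod_cons, List.prod_nil, mul_one, List.map_nil,
      List.prod_nil, one_smul, words_V2, Matrix.mul_vecMulVec]
  | cons i bs ih =>
    intro b
    rw [List.map_cons, List.prod_cons, ih i, words_V2, Matrix.mul_vecMulVec, mul_smul_comm,
      Matrix.vecMulVec_mul_vecMulVec, List.map_cons, List.prod_cons]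
    rw [Matrix.vecMulVec_smul, smul_smul, mul_comm]

/-- the third entry of `B_D^a B_C v2` -/
private lemma words_row (q : A) (a : ℕ) :
    (Matrix.mulVec (Bm true q ^ a) ((Bm false q).mulVec (wv2 q))) 0 =
        (q - 2) * ((-1) ^ a * ∑ i ∈ Finset.range (a + 1), (2 - q) ^ i) ∧
      (Matrix.mulVec (Bm true q ^ a) ((Bm false q).mulVec (wv2 q))) 2 =
        (-1) ^ (a + 1) * ∑ i ∈ Finset.range (a + 2), (2 - q) ^ i := by
  induction a with
  | zero =>
    refine ⟨?_, ?_⟩
    · simp [Bm, wv2, Matrix.mulVec, dotProduct, Fin.sum_univ_three]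
    · simp [Bm, wv2, Matrix.mulVec, dotProduct, Fin.sum_univ_three, Finset.sum_range_succ]
      ring
  | succ a ih =>
    obtain ⟨h1, h2⟩ := ih
    rw [pow_succ', ← Matrix.mulVec_mulVec]
    set u := Matrix.mulVec (Bm true q ^ a) ((Bm false q).mulVec (wv2 q)) with hu
    have e0 : Matrix.mulVec (Bm true q) u 0 = (q - 2) * u 2 := by
      simp [Bm, Matrix.mulVec, dotProduct, Fin.sum_univ_three]
    have e2 : Matrix.mulVec (Bm true q) u 2 = u 0 + (q - 3) * u 2 := by
      simp [Bm, Matrix.mulVec, dotProduct, Fin.sum_univ_three]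
    refine ⟨?_, ?_⟩
    · rw [e0, h2]
    · rw [e2, h1, h2, Finset.sum_range_succ _ (a + 2), Finset.sum_range_succ _ (a + 1),
        pow_succ (2 - q) (a + 1)]
      ring

theorem amp (q : A) (a : ℕ) (b : Bool) :
    wl2 ⬝ᵥ (Xl a b q).mulVec (wv2 q) = if b then bl a q else 1 := by
  have hC : ∀ v : Fin 3 → A, wl2 ⬝ᵥ (Bm false q).mulVec v = v 2 := by
    intro v
    simp [Bm, wl2, Matrix.mulVec, dotProduct, Fin.sum_univ_three]
    ring
  cases b
  · rw [Xl, if_neg (by simp), hC]
    simp [wv2]
  · rw [Xl, if_pos rfl, Matrix.smul_mulVec, dotProduct_smul, ← Matrix.mulVec_mulVec,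
      ← Matrix.mulVec_mulVec, hC, (words_row q a).2, smul_eq_mul, ← mul_assoc, pow_sq_one,
      one_mul, if_pos rfl, bl]

theorem Phl_zero (a : ℕ) (bs : List Bool) (hbs : bs ≠ []) (q : A) :
    Phl a bs q 0 = (bs.map (fun b => if b then bl a q else 1)).prod := by
  obtain ⟨b, bs', rfl⟩ : ∃ b bs', bs = b :: bs' := by
    cases bs with
    | nil => exact absurd rfl hbs
    | cons b bs' => exact ⟨b, bs', rfl⟩
  rw [Phl]
  simp only [zero_smul, add_zero]
  rw [words_rank, Matrix.trace_smul, smul_eq_mul, Matrix.trace_vecMulVec, dotProduct_comm, amp,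
    List.map_cons, List.prod_cons, mul_comm]
  simp only [amp]

end H80L
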