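import Pool.Agent.H80L.Local
import Pool.Agent.H80L.Zero

/-!
# Points inside the lens
-/

namespace H80L

open CHR H37.Chrom

private theorem inside_fin : {z : ℂ | z ^ 2 - 3 * z + 1 = 0}.Finite := by
  have h5 : ((Real.sqrt 5 : ℝ) : ℂ) ^ 2 = 5 := by
    rw [← Complex.ofReal_pow, Real.sq_sqrt (by norm_num)]
    norm_num
  refine ((Set.finite_singleton ((3 - ((Real.sqrt 5 : ℝ) : ℂ)) / 2)).insert
    ((3 + ((Real.sqrt 5 : ℝ) : ℂ)) / 2)).subset ?_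
  intro z hz
  have hz' : z ^ 2 - 3 * z + 1 = 0 := hz
  have h : (z - (3 + ((Real.sqrt 5 : ℝ) : ℂ)) / 2) * (z - (3 - ((Real.sqrt 5 : ℝ) : ℂ)) / 2)
      = 0 := by
    linear_combination hz' - h5 / 4
  rcases mul_eq_zero.mp h with h' | h'
  · exact Or.inl (sub_eq_zero.mp h')
  · exact Or.inr (sub_eq_zero.mp h')

theorem lens_subset {q : ℂ} {m : ℕ} (hm : 3 ≤ m) (h1 : ‖q - 1‖ < 1) (h2 : ‖q - 2‖ < 1)
    (hB : ‖1 - (2 - q) ^ m‖ < ‖q - 1‖ ^ 2) : q ∈ closure rootSet := by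
  obtain ⟨a, rfl⟩ : ∃ a, m = a + 2 := ⟨m - 2, by omega⟩
  rw [Metric.mem_closure_iff]
  intro ε hε
  have hopen : IsOpen {z : ℂ | ‖z - 1‖ < 1 ∧ ‖z - 2‖ < 1 ∧
      ‖1 - (2 - z) ^ (a + 2)‖ < ‖z - 1‖ ^ 2 ∧ ‖z - q‖ < ε / 3} := by
    have o1 : IsOpen {z : ℂ | ‖z - 1‖ < 1} := isOpen_lt (by fun_prop) (by fun_prop)
    have o2 : IsOpen {z : ℂ | ‖z - 2‖ < 1} := isOpen_lt (by fun_prop) (by fun_prop)
    have o3 : IsOpen {z : ℂ | ‖1 - (2 - z) ^ (a + 2)‖ < ‖z - 1‖ ^ 2} :=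
      isOpen_lt (by fun_prop) (by fun_prop)
    have o4 : IsOpen {z : ℂ | ‖z - q‖ < ε / 3} := isOpen_lt (by fun_prop) (by fun_prop)
    exact o1.inter (o2.inter (o3.inter o4))
  have hmem : q ∈ {z : ℂ | ‖z - 1‖ < 1 ∧ ‖z - 2‖ < 1 ∧
      ‖1 - (2 - z) ^ (a + 2)‖ < ‖z - 1‖ ^ 2 ∧ ‖z - q‖ < ε / 3} :=
    ⟨h1, h2, hB, by rw [sub_self, norm_zero]; linarith⟩
  have hinf := infinite_of_mem_nhds q (hopen.mem_nhds hmem)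
  obtain ⟨q', ⟨g1, g2, g3, g4⟩, hq'⟩ := hinf.exists_notMem_finite inside_fin
  have g5 : q' ^ 2 - 3 * q' + 1 ≠ 0 := hq'
  obtain ⟨s, t, hs, ht, q1, hq1, hz⟩ := lens_zero g1 g2 g3 g5
    (ε := min (ε / 3) (1 - ‖q' - 2‖)) (lt_min (by linarith) (by linarith))
  have hq1a : ‖q1 - q'‖ < ε / 3 := hq1.trans_le (min_le_left _ _)
  have hq1b : ‖q1 - q'‖ < 1 - ‖q' - 2‖ := hq1.trans_le (min_le_right _ _)
  have hq12 : ‖q1 - 2‖ < 1 := by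
    have h3 : q1 - 2 = (q1 - q') + (q' - 2) := by ring
    rw [h3]
    refine (norm_add_le _ _).trans_lt ?_
    linarith
  obtain ⟨b, hb, hb1⟩ := lens_local hq12 (by omega) hs ht hz (ε := ε / 3) (by linarith)
  refine ⟨b, hb, ?_⟩
  rw [dist_eq_norm]
  have h3 : q - b = -(q' - q) + -(q1 - q') + -(b - q1) := by ring
  rw [h3]
  refine (norm_add₃_le).trans_lt ?_
  rw [norm_neg, norm_neg, norm_neg]
  linarith

/-- the point `3/2 + (4/5) i`, with `m = 6` -/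
theorem lens_point : ‖((3 / 2 : ℝ) + (4 / 5 : ℝ) * Complex.I : ℂ) - 1‖ < 1 ∧
    ‖((3 / 2 : ℝ) + (4 / 5 : ℝ) * Complex.I : ℂ) - 2‖ < 1 ∧
    ‖1 - (2 - ((3 / 2 : ℝ) + (4 / 5 : ℝ) * Complex.I : ℂ)) ^ 6‖ <
      ‖((3 / 2 : ℝ) + (4 / 5 : ℝ) * Complex.I : ℂ) - 1‖ ^ 2 := by
  have e : ∀ (z : ℂ) (x y : ℝ), z = ⟨x, y⟩ → ‖z‖ ^ 2 = x ^ 2 + y ^ 2 := by
    rintro z x y rfl
    rw [← Complex.normSq_eq_norm_sq, Complex.normSq_mk]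
    ring
  have hq : ((3 / 2 : ℝ) + (4 / 5 : ℝ) * Complex.I : ℂ) = ⟨3 / 2, 4 / 5⟩ := by
    apply Complex.ext <;> simp
  have a1 : ((3 / 2 : ℝ) + (4 / 5 : ℝ) * Complex.I : ℂ) - 1 = ⟨1 / 2, 4 / 5⟩ := by
    rw [hq]
    apply Complex.ext <;> simp
    norm_num
  have a2 : ((3 / 2 : ℝ) + (4 / 5 : ℝ) * Complex.I : ℂ) - 2 = ⟨-1 / 2, 4 / 5⟩ := by
    rw [hq]
    apply Complex.ext <;> simp
    norm_num
  have b1 : (2 : ℂ) - ((3 / 2 : ℝ) + (4 / 5 : ℝ) * Complex.I : ℂ) = ⟨1 / 2, -4 / 5⟩ := by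
    rw [hq]
    apply Complex.ext <;> simp <;> norm_num
  have b3 : ((⟨1 / 2, -4 / 5⟩ : ℂ)) ^ 3 = ⟨-835 / 1000, -88 / 1000⟩ := by
    apply Complex.ext <;> simp [pow_succ] <;> norm_num
  have b6 : ((⟨1 / 2, -4 / 5⟩ : ℂ)) ^ 6 = ⟨689481 / 1000000, 146960 / 1000000⟩ := by
    rw [show (6 : ℕ) = 3 * 2 from rfl, pow_mul, b3]
    apply Complex.ext <;> simp [pow_succ] <;> norm_num
  have c : (1 : ℂ) - (⟨689481 / 1000000, 146960 / 1000000⟩ : ℂ) =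
      ⟨310519 / 1000000, -146960 / 1000000⟩ := by
    apply Complex.ext <;> simp <;> norm_num
  refine ⟨?_, ?_, ?_⟩
  · have h := e _ _ _ a1
    nlinarith [norm_nonneg (((3 / 2 : ℝ) + (4 / 5 : ℝ) * Complex.I : ℂ) - 1)]
  · have h := e _ _ _ a2
    nlinarith [norm_nonneg (((3 / 2 : ℝ) + (4 / 5 : ℝ) * Complex.I : ℂ) - 2)]
  · rw [b1, b6, c, e _ _ _ a1]
    have h := e _ _ _ (rfl : (⟨310519 / 1000000, -146960 / 1000000⟩ : ℂ) = _)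
    nlinarith [norm_nonneg (⟨310519 / 1000000, -146960 / 1000000⟩ : ℂ)]

end H80L
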