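import Pool.Agent.CHR.Tie
import Pool.Agent.CHR.WheelPat
import Pool.Agent.CHR.Middle
import Pool.Agent.H80L.Arcs

/-!
# Points inside the left lens

Subdivided wheels with a collar, as in `CHR/MiddleZero` and `CHR/Middle`, with blocks of a fixed
length `j` such that `‖∑ i < j, (1 - q)^i‖ < 1`.
-/

namespace H80L

open CHR H37.Chrom Polynomial

/-- `(1 - (1 - q)^j) / q` -/
def lb {A : Type} [CommRing A] (j : ℕ) (q : A) : A := ∑ i ∈ Finset.range j, (1 - q) ^ i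

lemma lb_geom (q : ℂ) (j : ℕ) : q * lb j q = 1 - (1 - q) ^ j := by
  have h := mul_neg_geom_sum (1 - q) j
  rw [lb, ← h]
  ring

lemma eval_lb (q : ℂ) (j : ℕ) : (lb j (X : ℂ[X])).eval q = lb j q := by
  simp [lb, eval_finsetSum]

lemma thD_lb {q : ℂ} (hq : q ≠ 0) (j : ℕ) : thD q j = (-1) ^ (j + 1) * lb j q := by
  have h := q_mul_thD q j
  have h1 := lb_geom q j
  have h2 : (q - 1) ^ j = (-1) ^ j * (1 - q) ^ j := by
    rw [← mul_pow]
    congr 1
    ring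
  refine mul_left_cancel₀ hq ?_
  rw [h, h2, pow_succ]
  linear_combination (-1) ^ j * h1

private lemma mz_ofFn (n : ℕ) (w : List Bool) (h : w.length = n) :
    ∃ α : Fin n → Bool, List.ofFn α = w := by
  subst h
  exact ⟨w.get, List.ofFn_get w⟩

private lemma mz_pat (a L b j : ℕ) (h : j ≤ a) : (pat a L b)[j]? = some true := by
  cases j with
  | zero => simp [pat]
  | succ i =>
    rw [pat, List.getElem?_cons_succ,
      List.getElem?_append_left (by rw [List.length_replicate]; omega),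
      List.getElem?_replicate, if_pos (by omega)]

private lemma mz_get {n : ℕ} (α : Fin n → Bool) (j : Fin n) :
    (List.ofFn α)[(j : ℕ)]? = some (α j) := by
  simp

private lemma mz_three (k : ℕ) : (0 : ℝ) ≤ thD (3 : ℝ) k := by
  have h := q_mul_thD (3 : ℝ) k
  have h1 : (1 : ℝ) ≤ 2 ^ k := one_le_pow₀ (by norm_num)
  have h2 : (-1 : ℝ) ^ k ≤ 1 := by
    rcases Nat.even_or_odd k with he | ho
    · rw [he.neg_one_pow]
    · rw [ho.neg_one_pow]; norm_num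
  have h3 : (3 : ℝ) - 1 = 2 := by norm_num
  rw [h3] at h
  linarith

private lemma mz_threeC (k : ℕ) : thD (3 : ℂ) k = ((thD (3 : ℝ) k : ℝ) : ℂ) := by
  have h := thD_map Complex.ofRealHom (3 : ℝ) k
  simpa using h.symm

private lemma mz_ne {m a L b : ℕ} (h : a + b * (L + 1) = m + 1) :
    WA m (pat a L b) (X : ℂ[X]) ≠ 0 := by
  intro h0
  rw [WA_pat h] at h0
  have h1 := congrArg (Polynomial.eval (3 : ℂ)) h0
  have hm : ∀ k : ℕ, Polynomial.eval (3 : ℂ) (thD (X : ℂ[X]) k) = thD (3 : ℂ) k := by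
    intro k
    rw [← coe_evalRingHom, thD_map, coe_evalRingHom, eval_X]
  have h2 : Polynomial.eval (3 : ℂ) ((X : ℂ[X]) - 2) = 1 := by
    have : (2 : ℂ[X]) = C 2 := (C_ofNat 2).symm
    rw [this, eval_sub, eval_X, eval_C]
    norm_num
  rw [eval_mul, eval_add, eval_mul, eval_mul, eval_pow, eval_pow, hm, hm, h2, eval_X, one_pow,
    one_mul, eval_zero, mz_threeC, mz_threeC] at h1
  have h3 : (3 : ℂ) * ((((thD (3 : ℝ) (L + 2)) ^ b * thD (3 : ℝ) (m + 6) + 1 : ℝ)) : ℂ) = 0 := by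
    rw [← h1]
    push_cast
    ring
  have h4 : (0 : ℝ) < (thD (3 : ℝ) (L + 2)) ^ b * thD (3 : ℝ) (m + 6) + 1 := by
    have := mul_nonneg (pow_nonneg (mz_three (L + 2)) b) (mz_three (m + 6))
    linarith
  rcases mul_eq_zero.1 h3 with h | h
  · norm_num at h
  · rw [Complex.ofReal_eq_zero] at h
    linarith

private lemma lz_nd {j : ℕ} (hj : 1 ≤ j) (q0 : ℂ) (σ : ℝ) (hσ : 0 < σ) (δ : ℝ) (hδ : 0 < δ) :
    ∃ q ∈ Metric.ball q0 δ, deriv (fun q : ℂ => (q - 2) ^ 2) q * lb j q +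
      (σ : ℂ) * (deriv (fun q : ℂ => lb j q) q * (q - 2) ^ 2) ≠ 0 := by
  by_contra hcon
  push Not at hcon
  set Fp : ℂ[X] := lb j X with hFp
  have hF : ∀ q : ℂ, lb j q = Fp.eval q := fun q => (eval_lb q j).symm
  have hF' : (fun q : ℂ => lb j q) = fun q => Fp.eval q := funext hF
  set P : ℂ[X] := (X - C 2) * (C 2 * Fp + C (σ : ℂ) * (derivative Fp * (X - C 2))) with hP
  have hroot : ∀ q ∈ Metric.ball q0 δ, P.eval q = 0 := by
    intro q hq
    have h := hcon q hq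
    have hd : deriv (fun q : ℂ => (q - 2) ^ 2) q = 2 * (q - 2) := by
      have h1 : HasDerivAt (fun q : ℂ => (q - 2) ^ 2) (2 * (q - 2)) q := by
        have h2 := ((hasDerivAt_id q).sub_const (2 : ℂ)).fun_pow 2
        simpa using h2
      exact h1.deriv
    rw [hd, hF', Polynomial.deriv, hF] at h
    rw [hP]
    simp only [eval_mul, eval_add, eval_sub, eval_X, eval_C]
    linear_combination h
  have hinf : Set.Infinite {q : ℂ | IsRoot P q} := by
    have hb : Set.Infinite (Metric.ball q0 δ) := by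
      exact infinite_of_mem_nhds q0 (Metric.ball_mem_nhds q0 hδ)
    exact hb.mono fun q hq => hroot q hq
  have hP0 : P = 0 := eq_zero_of_infinite_isRoot P hinf
  rw [hP] at hP0
  rcases mul_eq_zero.1 hP0 with h | h
  · exact X_sub_C_ne_zero _ h
  · have h2 := congrArg (Polynomial.eval (0 : ℂ)) h
    have h3 : Fp.eval 0 = ((j : ℝ) : ℂ) := by
      rw [← hF, lb]
      simp
    have h4 : (derivative Fp).eval 0 = ((-(∑ i ∈ Finset.range j, (i : ℝ)) : ℝ) : ℂ) := by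
      rw [hFp, lb, derivative_sum, eval_finsetSum]
      push_cast
      rw [← Finset.sum_neg_distrib]
      refine Finset.sum_congr rfl fun i _ => ?_
      rw [derivative_pow]
      simp
    simp only [eval_mul, eval_add, eval_sub, eval_X, eval_C, eval_zero, h3, h4] at h2
    have h5 := congrArg Complex.re h2
    have h6 : (2 * ((j : ℝ) : ℂ) + (σ : ℂ) * (((-(∑ i ∈ Finset.range j, (i : ℝ)) : ℝ) : ℂ) *
        (0 - 2))) = ((2 * (j : ℝ) + σ * (2 * ∑ i ∈ Finset.range j, (i : ℝ)) : ℝ) : ℂ) := by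
      push_cast
      ring
    rw [h6, Complex.ofReal_re, Complex.zero_re] at h5
    have h7 : (1 : ℝ) ≤ j := by exact_mod_cast hj
    have h8 : 0 ≤ ∑ i ∈ Finset.range j, (i : ℝ) := Finset.sum_nonneg fun i _ => by positivity
    have h9 : 0 ≤ σ * (2 * ∑ i ∈ Finset.range j, (i : ℝ)) := by positivity
    linarith

theorem left_zero {q0 : ℂ} (h1 : ‖q0 - 1‖ < 1) (hq0 : q0 ≠ 0) (h3 : 1 < ‖q0 - 2‖)
    {L : ℕ} (hL2 : lb (L + 2) q0 ≠ 0) (hL3 : ‖lb (L + 2) q0‖ < 1)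
    {ε : ℝ} (hε : 0 < ε) :
    ∃ q1 : ℂ, ‖q1 - q0‖ < ε ∧ ∃ (m : ℕ) (α : Fin (m + 2) → Bool),
      WA m (List.ofFn α) q1 = 0 ∧ WA m (List.ofFn α) (X : ℂ[X]) ≠ 0 ∧
      ∃ j1 j2 j3 : Fin (m + 2), j1 ≠ j2 ∧ j1 ≠ j3 ∧ j2 ≠ j3 ∧
        α j1 = true ∧ α j2 = true ∧ α j3 = true := by
  have hq2 : q0 ≠ 2 := by
    intro h
    rw [h, sub_self, norm_zero] at h3
    linarith
  have hFe : (fun q : ℂ => lb (L + 2) q) = fun q => (lb (L + 2) (X : ℂ[X])).eval q := by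
    funext q
    rw [eval_lb]
  have hFd : Differentiable ℂ (fun q : ℂ => lb (L + 2) q) := by
    rw [hFe]
    exact Polynomial.differentiable _
  set κ : ℝ := (1 + ‖q0 - 1‖) / 2 with hκ
  have hκ0 : 0 ≤ κ := by positivity
  have hκ1 : κ < 1 := by rw [hκ]; linarith
  have hκ2 : ‖q0 - 1‖ < κ := by rw [hκ]; linarith
  have hn0 : 0 < ‖q0‖ := norm_pos_iff.2 hq0
  have ev : ∀ᶠ q in nhds q0, q ≠ 0 ∧ q ≠ 2 ∧ lb (L + 2) q ≠ 0 ∧ ‖q - 1‖ < κ ∧
      ‖q - q0‖ < ‖q0‖ / 8 := by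
    refine (eventually_ne_nhds hq0).and ((eventually_ne_nhds hq2).and ?_)
    refine (hFd.continuous.continuousAt.eventually_ne hL2).and (Filter.Eventually.and ?_ ?_)
    · have hc : Continuous fun q : ℂ => ‖q - 1‖ := by fun_prop
      exact hc.continuousAt.eventually (gt_mem_nhds hκ2)
    · have hc : Continuous fun q : ℂ => ‖q - q0‖ := by fun_prop
      refine hc.continuousAt.eventually (gt_mem_nhds ?_)
      simp only [sub_self, norm_zero]
      positivity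
  obtain ⟨r, hr, hball⟩ := Metric.eventually_nhds_iff_ball.1 ev
  obtain ⟨N0, hN0⟩ := exists_pow_lt_of_lt_one (show (0 : ℝ) < 1 / 8 by norm_num) hκ1
  have hsm : ∀ k, N0 ≤ k → ∀ q ∈ Metric.ball q0 r, ‖(1 - q) ^ k‖ ≤ 1 / 8 := by
    intro k hk q hq
    have hq1 := (hball q hq).2.2.2.1
    calc ‖(1 - q) ^ k‖ = ‖q - 1‖ ^ k := by rw [norm_pow, norm_sub_rev]
      _ ≤ κ ^ k := pow_le_pow_left₀ (norm_nonneg _) hq1.le k
      _ ≤ κ ^ N0 := pow_le_pow_of_le_one hκ0 hκ1.le hk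
      _ ≤ 1 / 8 := hN0.le
  have hden : ∀ k, N0 ≤ k → ∀ q ∈ Metric.ball q0 r, 7 / 8 ≤ ‖1 - (1 - q) ^ k‖ := by
    intro k hk q hq
    have h := norm_sub_norm_le (1 : ℂ) ((1 - q) ^ k)
    rw [norm_one] at h
    have := hsm k hk q hq
    linarith
  have hden0 : ∀ k, N0 ≤ k → ∀ q ∈ Metric.ball q0 r, 1 - (1 - q) ^ k ≠ 0 := by
    intro k hk q hq h
    have := hden k hk q hq
    rw [h, norm_zero] at this
    linarith
  obtain ⟨s, t, hs, ht, q1, hq1, hqe⟩ := tie (q0 := q0) (c := q0) hr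
    (F := fun q => lb (L + 2) q) (G := fun q => (q - 2) ^ 2)
    hFd.differentiableOn (by fun_prop)
    (fun q hq => (hball q hq).2.2.1)
    (fun q hq => pow_ne_zero 2 (sub_ne_zero.2 (hball q hq).2.1))
    hL3 (by
      simp only [norm_pow]
      nlinarith)
    (fun σ hσ δ hδ => lz_nd (j := L + 2) (by omega) q0 σ hσ δ hδ) hq0 N0
    (fun s t q => q / (1 - (1 - q) ^ (2 * t + s * (L + 1) + 6)))
    (by
      intro s t _ ht q hq
      have hk : N0 ≤ 2 * t + s * (L + 1) + 6 := by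
        have := Nat.zero_le (s * (L + 1))
        omega
      refine DifferentiableAt.differentiableWithinAt ?_
      refine DifferentiableAt.div differentiableAt_id ?_ (hden0 _ hk q hq)
      fun_prop)
    (by
      intro s t _ ht q hq
      have hk : N0 ≤ 2 * t + s * (L + 1) + 6 := by
        have := Nat.zero_le (s * (L + 1))
        omega
      have e0 := hden0 _ hk q hq
      have e1 := hden _ hk q hq
      have e2 := hsm _ hk q hq
      have e3 := (hball q hq).2.2.2.2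
      set u := (1 - q) ^ (2 * t + s * (L + 1) + 6) with hu
      have e4 : q / (1 - u) - q0 = (q - q0 + q0 * u) / (1 - u) := by
        field_simp
        ring
      have e5 : ‖q - q0 + q0 * u‖ ≤ ‖q0‖ / 4 := by
        calc ‖q - q0 + q0 * u‖ ≤ ‖q - q0‖ + ‖q0 * u‖ := norm_add_le _ _
          _ = ‖q - q0‖ + ‖q0‖ * ‖u‖ := by rw [norm_mul]
          _ ≤ ‖q0‖ / 8 + ‖q0‖ * (1 / 8) := by gcongr
          _ = ‖q0‖ / 4 := by ring
      change ‖q / (1 - u) - q0‖ ≤ ‖q0‖ / 2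
      rw [e4, norm_div, div_le_iff₀ (by linarith)]
      nlinarith)
    (ε := min ε r) (lt_min hε hr) (max 3 N0)
  have hs3 : 3 ≤ s := le_trans (le_max_left _ _) hs
  have ht3 : 3 ≤ t := le_trans (le_max_left _ _) ht
  have htN : N0 ≤ t := le_trans (le_max_right _ _) ht
  have hqr : q1 ∈ Metric.ball q0 r := by
    rw [Metric.mem_ball, dist_eq_norm]
    exact lt_of_lt_of_le hq1 (min_le_right _ _)
  set m : ℕ := 2 * t + s * (L + 1) with hm
  have hpat : (2 * t + 1) + s * (L + 1) = m + 1 := by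
    rw [hm]
    ring
  obtain ⟨α, hα⟩ := mz_ofFn (m + 2) (pat (2 * t + 1) L s) (by
    rw [length_pat, hpat])
  have hα3 : ∀ j : Fin (m + 2), (j : ℕ) ≤ 2 * t + 1 → α j = true := by
    intro j hj
    have e1 := mz_get α j
    rw [hα, mz_pat _ _ _ _ hj] at e1
    exact (Option.some.inj e1).symm
  have hk : N0 ≤ m + 6 := by
    rw [hm]
    have := Nat.zero_le (s * (L + 1))
    omega
  refine ⟨q1, lt_of_lt_of_le hq1 (min_le_left _ _), m, α, ?_, ?_, ?_⟩
  · have hq10 : q1 ≠ 0 := (hball q1 hqr).1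
    rw [hα, WA_pat hpat, thD_lb hq10, thD_lb hq10]
    have e1 := lb_geom q1 (m + 6)
    have e3 := hden0 _ hk q1 hqr
    have e4 : lb (L + 2) q1 ^ s * ((q1 - 2) ^ 2) ^ t = q1 / (1 - (1 - q1) ^ (m + 6)) := hqe
    rw [eq_div_iff e3] at e4
    have e6 : (q1 - 2) ^ (2 * t + 1) = ((q1 - 2) ^ 2) ^ t * (q1 - 2) := by
      rw [pow_succ, pow_mul]
    have e9 : ((-1 : ℂ) ^ (L + 2 + 1)) ^ s * (-1) ^ (m + 6 + 1) = -1 := by
      rw [← pow_mul, ← pow_add]
      have : Odd ((L + 2 + 1) * s + (m + 6 + 1)) := by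
        rw [hm]
        exact ⟨(L + 2) * s + t + 3, by ring⟩
      exact this.neg_one_pow
    rw [e6, mul_pow]
    have e7 : lb (L + 2) q1 ^ s * ((q1 - 2) ^ 2) ^ t * lb (m + 6) q1 = 1 := by
      have e8 : q1 * (1 - (1 - q1) ^ (m + 6)) *
          (lb (L + 2) q1 ^ s * ((q1 - 2) ^ 2) ^ t * lb (m + 6) q1 - 1) = 0 := by
        linear_combination q1 * lb (m + 6) q1 * e4 + q1 * e1
      rcases mul_eq_zero.1 e8 with h | h
      · exact absurd h (mul_ne_zero hq10 e3)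
      · exact sub_eq_zero.1 h
    linear_combination q1 * (q1 - 2) * (lb (L + 2) q1 ^ s * ((q1 - 2) ^ 2) ^ t *
      lb (m + 6) q1) * e9 - q1 * (q1 - 2) * e7
  · rw [hα]
    exact mz_ne hpat
  · refine ⟨⟨0, by omega⟩, ⟨1, by omega⟩, ⟨2, by omega⟩, ?_, ?_, ?_, ?_, ?_, ?_⟩
    · simp
    · simp [Fin.ext_iff]
    · simp [Fin.ext_iff]
    · exact hα3 _ (by simp)
    · exact hα3 _ (by simp)
    · exact hα3 _ (by simp; omega)

/-- the points of the left region are not real -/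
private lemma left_im {q0 : ℂ} (h1 : ‖q0 - 1‖ < 1) (h2 : ‖q0‖ < 1) {j : ℕ} (hj : 1 ≤ j)
    (hB : ‖lb j q0‖ < 1) : q0.im ≠ 0 := by
  intro h
  have hq : q0 = ((q0.re : ℝ) : ℂ) := by
    apply Complex.ext
    · simp
    · simpa using h
  rw [hq, Complex.norm_real, Real.norm_eq_abs] at h2
  have h3 : 0 ≤ 1 - q0.re := by linarith [(abs_lt.1 h2).2]
  have h4 : lb j q0 = ((∑ i ∈ Finset.range j, (1 - q0.re) ^ i : ℝ) : ℂ) := by
    rw [lb]
    push_cast
    refine Finset.sum_congr rfl fun i _ => ?_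
    congr 2
  have h5 : 1 ≤ ∑ i ∈ Finset.range j, (1 - q0.re) ^ i := by
    obtain ⟨k, rfl⟩ : ∃ k, j = k + 1 := ⟨j - 1, by omega⟩
    rw [Finset.sum_range_succ']
    have : 0 ≤ ∑ i ∈ Finset.range k, (1 - q0.re) ^ (i + 1) :=
      Finset.sum_nonneg fun i _ => pow_nonneg h3 _
    rw [pow_zero]
    linarith
  rw [h4, Complex.norm_real, Real.norm_eq_abs, abs_of_nonneg (by linarith)] at hB
  linarith

theorem left_subset {q0 : ℂ} {j : ℕ} (hj : 2 ≤ j) (h1 : ‖q0 - 1‖ < 1) (h2 : ‖q0‖ < 1)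
    (hB : ‖1 - (1 - q0) ^ j‖ < ‖q0‖) : q0 ∈ closure rootSet := by
  obtain ⟨L, rfl⟩ : ∃ L, j = L + 2 := ⟨j - 2, by omega⟩
  have hpos0 : 0 < ‖q0‖ := (norm_nonneg _).trans_lt hB
  have hq0 : q0 ≠ 0 := norm_pos_iff.1 hpos0
  have hL3 : ‖lb (L + 2) q0‖ < 1 := by
    have h4 := congrArg norm (lb_geom q0 (L + 2))
    rw [norm_mul] at h4
    rw [← h4] at hB
    by_contra hc
    push Not at hc
    nlinarith
  have hL2 : lb (L + 2) q0 ≠ 0 := by
    intro h
    have h4 := lb_geom q0 (L + 2)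
    rw [h, mul_zero] at h4
    have h5 : (1 - q0) ^ (L + 2) = 1 := (sub_eq_zero.1 h4.symm).symm
    have h6 := congrArg norm h5
    rw [norm_pow, norm_one, norm_sub_rev] at h6
    have h7 : ‖q0 - 1‖ ^ (L + 2) < 1 := pow_lt_one₀ (norm_nonneg _) h1 (by omega)
    linarith
  have h3 : 1 < ‖q0 - 2‖ := by
    have h4 : ‖(2 : ℂ)‖ ≤ ‖q0‖ + ‖q0 - 2‖ := by
      have h5 : (2 : ℂ) = q0 - (q0 - 2) := by ring
      calc ‖(2 : ℂ)‖ = ‖q0 - (q0 - 2)‖ := by rw [← h5]
        _ ≤ ‖q0‖ + ‖q0 - 2‖ := norm_sub_le _ _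
    rw [Complex.norm_ofNat] at h4
    linarith
  have haim := left_im h1 h2 (by omega) hL3
  have ea : (q0 - 1) - 1 = q0 - 2 := by ring
  have ha0 : q0 - 1 ≠ 0 := by
    intro h
    apply haim
    have h4 := congrArg Complex.im h
    simpa using h4
  have hpos : Complex.normSq (q0 - 1) ≠ 0 := fun h => ha0 (Complex.normSq_eq_zero.1 h)
  obtain ⟨w, hw, he⟩ := exists_w ((q0 - 1) - 1 + 3 / (q0 - 1))
  have hT : ((q0 - 1) - 1 + 3 / (q0 - 1)).im ≠ 0 := by
    rw [im_T (q0 - 1) ha0]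
    refine mul_ne_zero ?_ ?_
    · simpa using haim
    · intro h
      have h5 : 3 / Complex.normSq (q0 - 1) = 1 := by linarith
      rw [div_eq_one_iff_eq hpos, Complex.normSq_eq_norm_sq] at h5
      nlinarith [norm_nonneg (q0 - 1)]
  have hw1 : 1 < ‖w‖ := lt_of_le_of_ne hw (Ne.symm (norm_ne_one he hT))
  have hdom : ‖w - 1‖ < ‖(q0 - 1) - 1‖ * ‖w‖ :=
    dominance2 ha0 h1.le (by rw [ea]; exact h3.le) hw he
  rw [ea] at hdom he
  obtain ⟨r, hr, lp, lm, ρ, σ, D⟩ := exists_dom ha0 hw1 he hdom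
  rw [Metric.mem_closure_iff]
  intro ε hε
  obtain ⟨q1, hq1, m, α, hW, hne, j1, j2, j3, h12, h13, h23, a1, a2, a3⟩ :=
    left_zero h1 hq0 h3 hL2 hL3 (lt_min hr (half_pos hε))
  have hq1U : q1 ∈ Metric.ball q0 r := by
    rw [Metric.mem_ball, dist_eq_norm]
    exact lt_of_lt_of_le hq1 (min_le_left _ _)
  obtain ⟨q, hq, l, hroot⟩ := local_root_HG D hq1U hne hW (half_pos hε)
  refine ⟨q, ⟨_, inferInstance, HG m l α, threeConnected_HG m l α h12 h13 h23 a1 a2 a3,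
    planar_HG m l α, hroot⟩, ?_⟩
  rw [dist_comm, dist_eq_norm]
  have h6 : ‖q1 - q0‖ < ε / 2 := lt_of_lt_of_le hq1 (min_le_right _ _)
  calc ‖q - q0‖ = ‖(q - q1) + (q1 - q0)‖ := by congr 1; ring
    _ ≤ ‖q - q1‖ + ‖q1 - q0‖ := norm_add_le _ _
    _ < ε := by linarith

/-- every boundary point of the left lens, except `0` and `1`, is an interior point of the
closure of the set of chromatic roots -/
theorem left_arcs {q0 : ℂ} (h : (‖q0‖ = 1 ∧ ‖q0 - 1‖ ≤ 1) ∨ (‖q0‖ ≤ 1 ∧ ‖q0 - 1‖ = 1))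
    (h0 : q0 ≠ 0) (h1 : q0 ≠ 1) : q0 ∈ interior (closure rootSet) := by
  have hz0 : (1 : ℂ) - q0 ≠ 0 := sub_ne_zero.2 h1.symm
  have hz1 : ‖(1 : ℂ) - q0‖ ≤ 1 := by
    rw [norm_sub_rev]
    rcases h with h | h
    · exact h.2
    · exact h.2.le
  have hq1 : 0 < ‖q0‖ := norm_pos_iff.2 h0
  have hq2 : ‖q0‖ ≤ 1 := by
    rcases h with h | h
    · exact h.1.le
    · exact h.1
  obtain ⟨m, hm, hB⟩ : ∃ m, 3 ≤ m ∧ ‖1 - (1 - q0) ^ m‖ < ‖q0‖ := by
    rcases hz1.lt_or_eq with h3 | h3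
    · have h4 : ‖q0‖ = 1 := by
        rcases h with h | h
        · exact h.1
        · rw [norm_sub_rev] at h3
          rw [h.2] at h3
          exact absurd h3 (lt_irrefl _)
      obtain ⟨m, hm, h5⟩ := disc_rec hz0 h3
      exact ⟨m, hm, by rw [h4]; exact h5⟩
    · exact circle_rec h3 hq1
  have hn : 1 < ‖q0 - 2‖ := by
    have h4 : ‖q0 - 2‖ ^ 2 = (q0.re - 2) ^ 2 + q0.im ^ 2 := by
      rw [← Complex.normSq_eq_norm_sq, Complex.normSq_apply]
      simp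
      ring
    have h5 : ‖q0‖ ^ 2 = q0.re ^ 2 + q0.im ^ 2 := by
      rw [← Complex.normSq_eq_norm_sq, Complex.normSq_apply]
      ring
    have h6 : ‖q0‖ ^ 2 ≤ 1 := by nlinarith
    have h7 : q0.re ≤ 1 := by nlinarith [sq_nonneg q0.im]
    by_contra hc
    push Not at hc
    have h8 : ‖q0 - 2‖ ^ 2 ≤ 1 := by
      have := norm_nonneg (q0 - 2)
      nlinarith
    have h9 : q0.im ^ 2 ≤ 0 := by nlinarith
    have h10 : q0.im = 0 := by
      have := sq_nonneg q0.im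
      exact pow_eq_zero_iff (by norm_num) |>.1 (le_antisymm h9 this)
    have h11 : q0.re = 1 := by nlinarith
    exact h1 (Complex.ext (by simpa using h11) (by simpa using h10))
  rw [mem_interior]
  refine ⟨{z : ℂ | ‖1 - (1 - z) ^ m‖ < ‖z‖} ∩ {z : ℂ | 1 < ‖z - 2‖}, ?_,
    (isOpen_lt (by fun_prop) (by fun_prop)).inter (isOpen_lt (by fun_prop) (by fun_prop)),
    ⟨hB, hn⟩⟩
  rintro z ⟨hz, hzn⟩
  by_cases g1 : 1 ≤ ‖z - 1‖
  · exact outside_subset g1 (le_of_lt hzn)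
  · by_cases g2 : 1 ≤ ‖z‖
    · exact CHR.middle_subset (not_le.1 g1) g2 (le_of_lt hzn)
    · exact left_subset (by omega) (not_le.1 g1) (not_le.1 g2) hz

end H80L
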